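import Mathlib

set_option autoImplicit false

namespace Pool.Agent.W102.TD

open Finset

/-! ## Part 1: the counting inequality of Tu and Deng -/

/-- number of ones among the binary digits `0..m-1` of `i` -/
def wt (m i : ℕ) : ℕ := ((Finset.range m).filter (fun k => i.testBit k = true)).card

/-- the counting inequality conjectured by Tu and Deng -/
def TuDeng (m : ℕ) : Prop := ∀ t : ℕ, 0 < t → t < 2 ^ m - 1 →
  ((Finset.range (2 ^ m - 1) ×ˢ Finset.range (2 ^ m - 1)).filter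
    (fun p : ℕ × ℕ => (p.1 + p.2) % (2 ^ m - 1) = t ∧ wt m p.1 + wt m p.2 ≤ m - 1)).card
      ≤ 2 ^ (m - 1)

/-- the digits `0..m-1` of `t`, least significant first -/
def bits (m t : ℕ) : List Bool := (List.range m).map (fun k => t.testBit k)

/-- `cnt ts e e' d`: number of digit lists `c` (as long as `ts`) such that adding `c` to `ts`
(least significant digit first) with carry-in `e` gives carry-out `e'` and
`(number of ones of ts) - (number of positions with carry-in 1) = d`. -/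
def cnt : List Bool → Bool → Bool → ℤ → ℕ
  | [], e, e', d => if e = e' ∧ d = 0 then 1 else 0
  | true :: ts, false, e', d => cnt ts false e' (d - 1) + cnt ts true e' (d - 1)
  | true :: ts, true, e', d => 2 * cnt ts true e' d
  | false :: ts, false, e', d => 2 * cnt ts false e' d
  | false :: ts, true, e', d => cnt ts false e' (d + 1) + cnt ts true e' (d + 1)

/-- TD-CARRY: exact count of the solutions with prescribed carries. -/
def CARRY : Prop := ∀ (m t : ℕ) (e e' : Bool) (d : ℤ), t < 2 ^ m →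
  ((Finset.range (2 ^ m)).filter (fun c : ℕ => ∃ i < 2 ^ m,
      t + c + e.toNat = i + 2 ^ m * e'.toNat ∧
      (wt m i : ℤ) - (wt m c : ℤ) + 2 * (e'.toNat : ℤ) - 2 * (e.toNat : ℤ) = d)).card
    = cnt (bits m t) e e' d

/-- TD-COUNT: the set of Tu and Deng is not larger than the number of carry loops
with negative weight. -/
def COUNT : Prop := ∀ m t : ℕ, 0 < t → t < 2 ^ m - 1 →
  ((Finset.range (2 ^ m - 1) ×ˢ Finset.range (2 ^ m - 1)).filter
    (fun p : ℕ × ℕ => (p.1 + p.2) % (2 ^ m - 1) = t ∧ wt m p.1 + wt m p.2 ≤ m - 1)).card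
   ≤ ∑ d ∈ Finset.Icc (-(m : ℤ)) (-1), (cnt (bits m t) false false d + cnt (bits m t) true true d)

section ring
variable {R : Type*} [CommRing R]

/-- transfer matrix of one letter -/
def Lm (a b : R) : Bool → Matrix (Fin 2) (Fin 2) R
  | true => !![a, a; 0, 1]
  | false => !![1, 0; b, b]

/-- transfer matrix of a word -/
def Mw (a b : R) (w : List Bool) : Matrix (Fin 2) (Fin 2) R := (w.map (Lm a b)).prod

/-- commutative weight of a word: `a` for each `true`, `b` for each `false` -/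
def wgt (a b : R) (u : List Bool) : R := (u.map (fun c => if c = true then a else b)).prod
end ring

/-- the first difference of `u` and `w` exists (inside both) and is `false` in `u`,
`true` in `w` -/
def down : List Bool → List Bool → Bool
  | false :: _, true :: _ => true
  | true :: u, true :: w => down u w
  | false :: u, false :: w => down u w
  | _, _ => false

/-- the set of words `u` such that `u1` is a subsequence of `w`, or `u` is a subsequence of `w`
whose first difference from `w` is downwards -/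
def U (w : List Bool) : Finset (List Bool) :=
  w.sublists.toFinset.filter (fun u => List.Sublist (u ++ [true]) w ∨ down u w = true)

/-- TD-RING -/
def RING : Prop := ∀ (R : Type) [CommRing R] (a b : R) (w : List Bool),
  (1 - a - b) * (∑ u ∈ U w, wgt a b u)
    = 1 - Matrix.trace (Mw a b (false :: w)) + b * wgt a b w

/-- index of a carry -/
def ix : Bool → Fin 2
  | false => 0
  | true => 1

open LaurentPolynomial in
/-- the elements `x/2` and `x⁻¹/2` -/
noncomputable def xa : LaurentPolynomial ℚ := C (1 / 2 : ℚ) * T 1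
open LaurentPolynomial in
noncomputable def xb : LaurentPolynomial ℚ := C (1 / 2 : ℚ) * T (-1)

/-- TD-COEF -/
def COEF : Prop := ∀ (w : List Bool) (e e' : Bool) (d : ℤ),
  (Mw xa xb w (ix e) (ix e')).coeff d = (cnt w e e' d : ℚ) / 2 ^ w.length

/-- TD-UCLOSED: closed under deletion of a `true` -/
def UCLOSED : Prop := ∀ (w u v : List Bool), (u ++ true :: v) ∈ U w → (u ++ v) ∈ U w

/-- TD-DEL: double counting in a finite set of words closed under deletion of a `true` -/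
def DEL : Prop := ∀ (W : Finset (List Bool)),
  (∀ u v : List Bool, (u ++ true :: v) ∈ W → (u ++ v) ∈ W) → ∀ i j : ℕ,
  (i + 1) * (W.filter (fun u => u.count true = i + 1 ∧ u.count false = j)).card
    ≤ (i + j + 1) * (W.filter (fun u => u.count true = i ∧ u.count false = j)).card

/-- TD-UTOP: no word of `U w` contains all the `true`s -/
def UTOP : Prop := ∀ (w u : List Bool), u ∈ U w → u.count true < w.count true

/-- TD-UEX: a word of `U w` with one `true` less than `w` and a given number of `false`s -/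
def UEX : Prop := ∀ (w : List Bool) (z : ℕ), true ∈ w → z ≤ w.count false →
  ∃ u ∈ U w, u.count true + 1 = w.count true ∧ u.count false = z

/-- TD-QINEQ (from UCLOSED, DEL, UTOP, UEX) -/
def QINEQ : Prop := ∀ w : List Bool, true ∈ w →
  (∑ u ∈ (U w).filter (fun u => u.count true = u.count false), (1 / 2 : ℚ) ^ u.length)
   - (∑ u ∈ (U w).filter (fun u => u.count false = u.count true + 1), (1 / 2 : ℚ) ^ u.length)
   ≤ 1 - (if w.count true ≤ w.count false then (1 / 2 : ℚ) ^ w.length else 0)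

/-- TD-LOOP0 (from RING, COEF, QINEQ): the bound for words starting with `false` -/
def LOOP0 : Prop := ∀ w : List Bool, true ∈ w →
  2 * ∑ d ∈ Finset.Icc (-((false :: w).length : ℤ)) (-1),
    (cnt (false :: w) false false d + cnt (false :: w) true true d) ≤ 2 ^ (false :: w).length

/-- TD-ROT (from COEF): rotation invariance -/
def ROT : Prop := ∀ (c : Bool) (w : List Bool) (d : ℤ),
  cnt (c :: w) false false d + cnt (c :: w) true true d
    = cnt (w ++ [c]) false false d + cnt (w ++ [c]) true true d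

/-- TD-LOOP (from LOOP0, ROT) -/
def LOOP : Prop := ∀ w : List Bool, true ∈ w → false ∈ w →
  2 * ∑ d ∈ Finset.Icc (-(w.length : ℤ)) (-1),
    (cnt w false false d + cnt w true true d) ≤ 2 ^ w.length

/-! ## Part 2: the function of Tu and Deng -/

section field
variable {F : Type} [Field F]

open Classical in
/-- the function of Tu and Deng -/
noncomputable def f0 (m : ℕ) (α : F) (x y : F) : ZMod 2 :=
  if y ≠ 0 ∧ ∃ k < 2 ^ (m - 1), x = α ^ k * y then 1 else 0

/-- evaluation of a polynomial in two variables with exponents `< 2^m-1` -/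
noncomputable def ev (m : ℕ) (H : ℕ → ℕ → F) (x y : F) : F :=
  ∑ i ∈ Finset.range (2 ^ m - 1), ∑ j ∈ Finset.range (2 ^ m - 1), H i j * x ^ i * y ^ j

/-- low weight: only exponents with `wt i + wt j ≤ m-1` -/
def Low (m : ℕ) (H : ℕ → ℕ → F) : Prop :=
  ∀ i j, H i j ≠ 0 → i < 2 ^ m - 1 ∧ j < 2 ^ m - 1 ∧ wt m i + wt m j ≤ m - 1
end field

/-- TD-BCH: Vandermonde -/
def BCH : Prop := ∀ (F : Type) [Field F] (I : Finset ℕ) (c β : ℕ → F) (s N : ℕ),
  Set.InjOn β (I : Set ℕ) → (∀ i ∈ I, β i ≠ 0) → I.card ≤ N →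
  (∀ k, s ≤ k → k < s + N → ∑ i ∈ I, c i * (β i) ^ k = 0) → ∀ i ∈ I, c i = 0

/-- TD-TCOEF: vanishing on the line `x = γ y` kills every `t`-part -/
def TCOEF : Prop := ∀ (F : Type) [Field F] [Fintype F] (m : ℕ), 1 ≤ m → Fintype.card F = 2 ^ m →
  ∀ (H : ℕ → ℕ → F) (γ : F), (∀ y : F, y ≠ 0 → ev m H (γ * y) y = 0) →
  ∀ t < 2 ^ m - 1, ∑ p ∈ (Finset.range (2 ^ m - 1) ×ˢ Finset.range (2 ^ m - 1)).filter
    (fun p : ℕ × ℕ => (p.1 + p.2) % (2 ^ m - 1) = t), H p.1 p.2 * γ ^ p.1 = 0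

/-- TD-LOW (from TuDeng, BCH, TCOEF) -/
def LOW : Prop := ∀ (F : Type) [Field F] [Fintype F] (m : ℕ), 1 ≤ m → TuDeng m →
  Fintype.card F = 2 ^ m → ∀ α : F, α ≠ 0 → orderOf α = 2 ^ m - 1 →
  ∀ H : ℕ → ℕ → F, Low m H →
   ((∀ x y, f0 m α x y = 1 → ev m H x y = 0) ∨ (∀ x y, f0 m α x y = 0 → ev m H x y = 0)) →
   ∀ i j, H i j = 0

/-- TD-LIN: linear functionals are linearized polynomials -/
def LIN : Prop := ∀ (F : Type) [Field F] [Fintype F] [Algebra (ZMod 2) F] (m : ℕ),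
  Fintype.card F = 2 ^ m → ∀ l : F →ₗ[ZMod 2] ZMod 2, ∃ c : ℕ → F, ∀ x : F,
    algebraMap (ZMod 2) F (l x) = ∑ k ∈ Finset.range m, c k * x ^ (2 ^ k)

/-- TD-MUL: exponents -/
def MUL : Prop := ∀ m i k : ℕ, i < 2 ^ m - 1 → k < m → wt m i + 1 < m →
  ∃ i' < 2 ^ m - 1, 0 < i' ∧ wt m i' ≤ wt m i + 1 ∧ i' ≡ i + 2 ^ k [MOD (2 ^ m - 1)]

/-- TD-PROD (from LIN, MUL): products of few linear functionals -/
def PROD : Prop := ∀ (F : Type) [Field F] [Fintype F] [Algebra (ZMod 2) F] (m : ℕ),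
  Fintype.card F = 2 ^ m → ∀ (ι : Type) (S : Finset ι) (l : ι → (F →ₗ[ZMod 2] ZMod 2)),
  S.card < m → ∃ h : ℕ → F, (∀ i, h i ≠ 0 → i < 2 ^ m - 1 ∧ wt m i ≤ S.card) ∧
    ∀ x : F, algebraMap (ZMod 2) F (∏ s ∈ S, l s x) = ∑ i ∈ Finset.range (2 ^ m - 1), h i * x ^ i

/-- join two halves -/
def zz {m : ℕ} (u v : Fin m → ZMod 2) : Fin (2 * m) → ZMod 2 := fun i =>
  if h : (i : ℕ) < m then u ⟨i, h⟩ else v ⟨(i : ℕ) - m, by omega⟩

/-- first half -/
def fs {m : ℕ} (v : Fin (2 * m) → ZMod 2) : Fin m → ZMod 2 := fun i => v ⟨i, by omega⟩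
/-- second half -/
def sn {m : ℕ} (v : Fin (2 * m) → ZMod 2) : Fin m → ZMod 2 := fun i => v ⟨m + i, by omega⟩

/-- TD-REP (from PROD): functions of degree `< m` have low weight polynomials -/
def REP : Prop := ∀ (F : Type) [Field F] [Fintype F] [Algebra (ZMod 2) F] (m : ℕ), 1 ≤ m →
  Fintype.card F = 2 ^ m → ∀ e : F ≃ₗ[ZMod 2] (Fin m → ZMod 2),
  ∀ c : Finset (Fin (2 * m)) → ZMod 2, (∀ S, c S ≠ 0 → S.card < m) →
  ∃ H : ℕ → ℕ → F, Low m H ∧ ∀ x y : F,
    algebraMap (ZMod 2) F (∑ S : Finset (Fin (2 * m)), c S * ∏ i ∈ S, zz (e x) (e y) i)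
      = ev m H x y

/-- TD-BENT -/
def BENT : Prop := ∀ (F : Type) [Field F] [Fintype F] (m : ℕ), 1 ≤ m →
  Fintype.card F = 2 ^ m → ∀ α : F, α ≠ 0 → orderOf α = 2 ^ m - 1 →
  ∀ l : F × F →+ ZMod 2,
    (∑ p : F × F, (-1 : ℤ) ^ (f0 m α p.1 p.2 + l p).val) ^ 2 = 2 ^ (2 * m)

/-- TD-UP: the indicator of `second half = 0` -/
def UP : Prop := ∀ m : ℕ, ∃ g : (Fin (2 * m) → ZMod 2) → ZMod 2, g ≠ 0 ∧
  (∀ v, sn v ≠ 0 → g v = 0) ∧
  ∃ c : Finset (Fin (2 * m)) → ZMod 2, (∀ S, c S ≠ 0 → S.card ≤ m) ∧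
    ∀ v, g v = ∑ S : Finset (Fin (2 * m)), c S * ∏ i ∈ S, v i

/-- the function of Tu and Deng on `2m` bits -/
noncomputable def ff {F : Type} [Field F] [Algebra (ZMod 2) F] {m : ℕ} (α : F)
    (e : F ≃ₗ[ZMod 2] (Fin m → ZMod 2)) (v : Fin (2 * m) → ZMod 2) : ZMod 2 :=
  f0 m α (e.symm (fs v)) (e.symm (sn v))

/-- TD-FINW (from BENT): the Walsh part -/
def FINW : Prop := ∀ (F : Type) [Field F] [Fintype F] [Algebra (ZMod 2) F] (m : ℕ), 1 ≤ m →
  Fintype.card F = 2 ^ m → ∀ α : F, α ≠ 0 → orderOf α = 2 ^ m - 1 →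
  ∀ e : F ≃ₗ[ZMod 2] (Fin m → ZMod 2), ∀ a : Fin (2*m) → ZMod 2,
      (∑ x : Fin (2*m) → ZMod 2, (-1 : ℤ) ^ (ff α e x + ∑ i, a i * x i).val) ^ 2 = 2 ^ (2*m)

/-- TD-FINA (from LOW, REP, UP): the algebraic immunity part -/
def FINA : Prop := ∀ (F : Type) [Field F] [Fintype F] [Algebra (ZMod 2) F] (m : ℕ), 1 ≤ m →
  TuDeng m → Fintype.card F = 2 ^ m → ∀ α : F, α ≠ 0 → orderOf α = 2 ^ m - 1 →
  ∀ e : F ≃ₗ[ZMod 2] (Fin m → ZMod 2),
  ∀ d : ℕ, ((∃ g : (Fin (2*m) → ZMod 2) → ZMod 2, g ≠ 0 ∧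
        ((∀ x, ff α e x * g x = 0) ∨ (∀ x, (ff α e x + 1) * g x = 0)) ∧
        ∃ c : Finset (Fin (2*m)) → ZMod 2, (∀ S, c S ≠ 0 → S.card ≤ d) ∧
          ∀ x, g x = ∑ S : Finset (Fin (2*m)), c S * ∏ i ∈ S, x i) ↔ m ≤ d)

/-- TD-FIN (from TuDeng, FINW, FINA): the frozen statement S14665 -/
def FIN : Prop :=
  ∀ m : ℕ, ∃ f : (Fin (2*m) → ZMod 2) → ZMod 2,
    (∀ a : Fin (2*m) → ZMod 2,
      (∑ x : Fin (2*m) → ZMod 2, (-1 : ℤ) ^ (f x + ∑ i, a i * x i).val) ^ 2 = 2 ^ (2*m)) ∧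
    ∀ d : ℕ, ((∃ g : (Fin (2*m) → ZMod 2) → ZMod 2, g ≠ 0 ∧
        ((∀ x, f x * g x = 0) ∨ (∀ x, (f x + 1) * g x = 0)) ∧
        ∃ c : Finset (Fin (2*m)) → ZMod 2, (∀ S, c S ≠ 0 → S.card ≤ d) ∧
          ∀ x, g x = ∑ S : Finset (Fin (2*m)), c S * ∏ i ∈ S, x i) ↔ m ≤ d)

end Pool.Agent.W102.TD
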